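import Pool.Agent.Helper21_PCS.LEV
import Pool.Agent.Helper90_PCS.ITP
import Pool.Agent.Helper33_PCS.AHR
import Pool.Agent.Helper25_PCS.UBD
import Pool.Agent.Helper28_PCS.CNT
import Pool.Agent.Helper65_PCS.FIX
import Pool.Agent.Helper45_PCS.TYP
import Pool.Agent.Helper73_PCS.INT
import Pool.Agent.Helper64_PCS.CHD
import Pool.Agent.Helper23_PCS.DSC
import Pool.Agent.Helper69_PCS.UNB
import Pool.Agent.Helper32_PCS.DZE
import Pool.Agent.Helper94_PCS.RKS
import Pool.Agent.Helper75_PCS.NEU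
import Pool.Agent.Helper17_PCS.SPA
import Pool.Agent.Helper52_PCS.COV
import Pool.Agent.Helper68_PCS.ZIN
import Pool.Agent.Helper32_PCS.SPB
import Pool.Agent.Helper85_PCS.EIA
import Pool.Agent.Helper41_PCS.EIB
import Pool.Agent.Helper38_PCS.CST
import Pool.Agent.Helper47_PCS.EXT
import Pool.Agent.Helper48_PCS.BND
import Pool.Agent.Helper41_PCS.MAI
import Pool.Agent.Helper82_PCS.BIN
import Pool.Agent.Helper73_PCS.CONR
import Pool.Agent.Helper6_PCS.TRE
import Pool.Agent.Helper81_PCS.FIN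

/-!
Squad PCS: assembly of the rows.
-/

namespace Pool.Agent.PCS.All

theorem pLEV : LevStmt := Pool.Agent.PCS.H21.lev

theorem pITP : ItpStmt := Pool.Agent.PCS.H90.itp

theorem pAHR : AhrStmt := Pool.Agent.PCS.H33.ahr pLEV pITP

theorem pUBD : UbdStmt := Pool.Agent.PCS.H25.ubd pLEV pITP pAHR

theorem pCNT : CntStmt := Pool.Agent.PCS.H28.cnt pLEV pITP

theorem pFIX : FixStmt := Pool.Agent.Helper65_PCS.FIX.main

theorem pTYP : TypStmt := Pool.Agent.PCS.H45.typ pLEV pITP pFIX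

theorem pINT : IntStmt := Pool.Agent.PCS.H73.int

theorem pCHD : ChdStmt := Pool.Agent.PCS.H64.chd pLEV pITP pFIX pINT

theorem pDSC : DscStmt := Pool.Agent.PCS.H23.dsc pCHD

theorem pUNB : UnbStmt := Pool.Agent.PCS.H69.unb pLEV pITP pUBD pCNT pTYP pDSC

theorem pDZE : DzeStmt := Pool.Agent.PCS.H32.dze pLEV pITP pCNT pTYP pDSC

theorem pRKS : RksStmt := Pool.Agent.PCS.H94.rks pLEV

theorem pNEU : NeuStmt := Pool.Agent.PCS.H75.neu pLEV pRKS

theorem pSPA : SpaStmt := Pool.Agent.PCS.H17.spa pLEV pRKS pNEU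

theorem pCOV : CovStmt := Pool.Agent.PCS.H52.cov pINT

theorem pZIN : ZinStmt := Pool.Agent.PCS.H68.zin pLEV pITP pSPA pCOV

theorem pSPB : SpbStmt := Pool.Agent.PCS.H32.spb pLEV pITP pSPA

theorem pEIA : EiaStmt := Pool.Agent.PCS.H85.eia pLEV pSPA pSPB

theorem pEIB : EibStmt := Pool.Agent.PCS.H41.eib pLEV pITP pINT pSPA pSPB

theorem pCST : CstStmt := Pool.Agent.PCS.H38.cst pRKS

theorem pEXT : ExtStmt := Pool.Agent.PCS.H47.ext pITP pCST

theorem pBND : BndStmt := Pool.Agent.PCS.H48.bnd pLEV pFIX pCHD pDZE pRKS pZIN pEIA pEIB pCST pEXT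

theorem pMAI : MaiStmt := Pool.Agent.PCS.H41.mai pUNB pBND

theorem pBIN : BinStmt := Pool.Agent.PCS.H82.bin

theorem pCON : ConStmt := Pool.Agent.PCS.H73.con

theorem pTRE : TreStmt := Pool.Agent.PCS.H6.tre pBIN pCON

theorem pFIN : FinStmt := Pool.Agent.PCS.H81.fin pMAI pTRE

end Pool.Agent.PCS.All
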