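import Mathlib
import Pool.Agent.Helper50_CIG.Sub

/-!
Squad PCS: groups acting on rooted trees, contracting outside a part of bounded Strahler number.
Definitions: rooted trees with a group action, orbit sizes, ranks of labels, germs, good ultrafilters.
-/

open scoped Pointwise

namespace Pool.Agent.PCS

open Pool.Agent.H50.CIG

/-- a rooted tree (type of vertices `V`) on which `Γ` acts; `par` is the parent, `lv` the level,
`child i v` (`i < d`) runs over all children of `v` (with repetitions; `child i v` is a child of `v`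
for every `i`) -/
structure Tree (Γ V : Type) [Group Γ] [MulAction Γ V] where
  par : V → V
  lv : V → ℕ
  root : V
  d : ℕ
  child : ℕ → V → V
  lv_root : lv root = 0
  eq_root : ∀ v, lv v = 0 → v = root
  par_smul : ∀ (g : Γ) v, par (g • v) = g • par v
  lv_smul : ∀ (g : Γ) v, lv (g • v) = lv v
  lv_par : ∀ v, lv (par v) = lv v - 1
  par_child : ∀ i v, par (child i v) = v
  lv_child : ∀ i v, lv (child i v) = lv v + 1
  ex_child : ∀ w, 0 < lv w → ∃ i < d, child i (par w) = w

section Act

variable (Γ : Type) {V : Type} [Group Γ] [MulAction Γ V]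

/-- the size of the orbit of `v` -/
noncomputable def N (v : V) : ℕ := (MulAction.orbit Γ v).ncard

end Act

section Defs

variable {Γ V : Type} [Group Γ] [MulAction Γ V]

/-- the pointwise stabilizer of the subtree of `v` (`v` included) -/
def KK (T : Tree Γ V) (v : V) : Subgroup Γ where
  carrier := {g | ∀ k w, T.par^[k] w = v → g • w = w}
  one_mem' := fun _ w _ => one_smul _ w
  mul_mem' := by
    intro a b ha hb k w hw
    rw [mul_smul, hb k w hw, ha k w hw]
  inv_mem' := by
    intro a ha k w hw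
    rw [inv_smul_eq_iff, ha k w hw]

/-- the ranks of the labels of the elements of `S`: they do not increase from a vertex to its
children, at most one child keeps a rank `≥ 1`, they are at most `R`, and the rank of `1` is `0` -/
structure Rank (T : Tree Γ V) (S : Finset Γ) (rk : Γ → V → ℕ) (R : ℕ) : Prop where
  le : ∀ s ∈ S, ∀ v, rk s v ≤ R
  mono : ∀ s ∈ S, ∀ v, 0 < T.lv v → rk s v ≤ rk s (T.par v)
  uniq : ∀ s ∈ S, ∀ v w, 0 < T.lv v → 0 < T.lv w → T.par v = T.par w → 1 ≤ rk s (T.par v) →
    rk s v = rk s (T.par v) → rk s w = rk s (T.par w) → v = w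
  one : ∀ v, rk 1 v = 0

/-- the number of pairs `(s, w)`, `w` in the orbit of `v`, of rank at least `h` -/
noncomputable def ah (S : Finset Γ) (rk : Γ → V → ℕ) (h : ℕ) (v : V) : ℕ :=
  ∑ s ∈ S, {w : V | w ∈ MulAction.orbit Γ v ∧ h ≤ rk s w}.ncard

/-- products of `r` elements of `S` which meet only labels of rank `0` on their way from `u` -/
def Dn (S : Finset Γ) (rk : Γ → V → ℕ) : ℕ → V → Set Γ
  | 0, _ => {1}
  | r + 1, u => {g | ∃ s ∈ S, ∃ h ∈ Dn S rk r u, rk s (h • u) = 0 ∧ g = s * h}

/-- contraction: `K j` levels below a vertex `u` there are at most `q` germs of the products of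
`2 ^ j` elements which meet only labels of rank `0` on their way from `u` -/
def Con (T : Tree Γ V) (S : Finset Γ) (rk : Γ → V → ℕ) (K q : ℕ) : Prop :=
  ∀ (j : ℕ) (w : V), K * j ≤ T.lv w → ∃ γ : Γ → Fin q,
    ∀ g ∈ Dn S rk (2 ^ j) (T.par^[K * j] w), ∀ g' ∈ Dn S rk (2 ^ j) (T.par^[K * j] w),
      g • w = g' • w → γ g = γ g' → g⁻¹ * g' ∈ KK T w

/-- all hypotheses of the theorem for the group `Γ = ⟨S⟩`, except the absence of two infinite
commuting subgroups -/
structure Setting (T : Tree Γ V) (S : Finset Γ) (rk : Γ → V → ℕ) (R K q : ℕ) : Prop where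
  inf : Infinite Γ
  one_mem : (1 : Γ) ∈ S
  inv_mem : ∀ s ∈ S, s⁻¹ ∈ S
  gen : Subgroup.closure (S : Set Γ) = ⊤
  ker : ({g : Γ | ∀ v : V, g • v = v}).Finite
  rank : Rank T S rk R
  con : Con T S rk K q
  nci : ¬ CI Γ

/-- the ball of radius `r` (products of `r` elements of `S`) -/
def ball (S : Finset Γ) (r : ℕ) : Set Γ := (S : Set Γ) ^ r

/-- the largest rank on the orbit of `v` -/
noncomputable def del (S : Finset Γ) (rk : Γ → V → ℕ) (v : V) : ℕ :=
  sSup {n | ∃ s ∈ S, ∃ w ∈ MulAction.orbit Γ v, n = rk s w}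

/-- the sum of the ranks on the orbit of `v` -/
noncomputable def sig (S : Finset Γ) (rk : Γ → V → ℕ) (v : V) : ℕ :=
  ∑ s ∈ S, ∑ᶠ w ∈ MulAction.orbit Γ v, rk s w

/-- the elements which lie in `KK v` for almost all `v` -/
def KU (T : Tree Γ V) (U : Ultrafilter V) : Subgroup Γ where
  carrier := {h | ∀ᶠ v in U, h ∈ KK T v}
  one_mem' := Filter.Eventually.of_forall fun _ => Subgroup.one_mem _
  mul_mem' := by
    intro a b ha hb
    filter_upwards [ha, hb] with v h1 h2
    exact Subgroup.mul_mem _ h1 h2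
  inv_mem' := by
    intro a ha
    filter_upwards [ha] with v h1
    exact Subgroup.inv_mem _ h1

/-- good ultrafilters: the orbit size is almost everywhere `n`, and `KU` is finite -/
def Good (T : Tree Γ V) (U : Ultrafilter V) (n : ℕ) : Prop :=
  (∀ᶠ v : V in (U : Filter V), N Γ v = n) ∧ (KU T U : Set Γ).Finite

/-- `x` is a neutral child of `v` -/
def Neu (T : Tree Γ V) (S : Finset Γ) (rk : Γ → V → ℕ) (v x : V) : Prop :=
  T.par x = v ∧ T.lv x = T.lv v + 1 ∧ N Γ x = N Γ v ∧ sig S rk x = sig S rk v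

open scoped Classical in
/-- one step along the spine: the neutral child if there is one (otherwise stay) -/
noncomputable def stp (T : Tree Γ V) (S : Finset Γ) (rk : Γ → V → ℕ) (v : V) : V :=
  if h : ∃ x, Neu T S rk v x then h.choose else v

/-- the first `n` steps along the spine are real steps -/
def Alive (T : Tree Γ V) (S : Finset Γ) (rk : Γ → V → ℕ) (n : ℕ) (v : V) : Prop :=
  ∀ m < n, ∃ x, Neu T S rk ((stp T S rk)^[m] v) x

/-- `y` hangs at the vertex number `n` of the spine of `v` -/
def Hang (T : Tree Γ V) (S : Finset Γ) (rk : Γ → V → ℕ) (n : ℕ) (v y : V) : Prop :=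
  Alive T S rk (n + 1) v ∧ T.par y = (stp T S rk)^[n] v ∧
    T.lv y = T.lv ((stp T S rk)^[n] v) + 1 ∧ y ≠ (stp T S rk)^[n + 1] v

/-- the elements of `H` which act trivially on all trees which hang at the spines of almost all
`v` -/
def ZZ (T : Tree Γ V) (S : Finset Γ) (rk : Γ → V → ℕ) (H : Subgroup Γ) (U : Ultrafilter V) :
    Subgroup Γ where
  carrier := {h | h ∈ H ∧ ∀ᶠ v in U, ∀ n y, Hang T S rk n v y → h ∈ KK T y}
  one_mem' := ⟨Subgroup.one_mem _, Filter.Eventually.of_forall fun _ _ _ _ => Subgroup.one_mem _⟩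
  mul_mem' := by
    rintro a b ⟨ha, ha'⟩ ⟨hb, hb'⟩
    refine ⟨Subgroup.mul_mem _ ha hb, ?_⟩
    filter_upwards [ha', hb'] with v h1 h2 n y hy
    exact Subgroup.mul_mem _ (h1 n y hy) (h2 n y hy)
  inv_mem' := by
    rintro a ⟨ha, ha'⟩
    refine ⟨Subgroup.inv_mem _ ha, ?_⟩
    filter_upwards [ha'] with v h1 n y hy
    exact Subgroup.inv_mem _ (h1 n y hy)

end Defs

end Pool.Agent.PCS
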