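import Pool.Agent.PCS.Tower

/-!
Squad PCS (MP_c4a8aa_al): statements of the rows, with complete proofs in the docstrings.
-/

open scoped Pointwise

namespace Pool.Agent.PCS

open Pool.Agent.H50.CIG

/-- **LEV** (uses: none).  Levels and orbits.

PROOF.  By induction on `n` the set `{v | lv v = n}` is finite: `n = 0`: only the root
(`eq_root`); `n + 1`: by `ex_child` (and `lv_par`) it is contained in the union over `i < d` of the
images of `{v | lv v = n}` under `child i`.  The orbit of `v` lies in the level of `v`.  `par` maps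
the orbit of `v` ONTO the orbit of `par v` (`par_smul`), so `N (par v) ≤ N v`; the fibre over `u` is
contained in `{child i u | i < d}` if `0 < lv v`, so `N v ≤ d * N (par v)`.  `1 ≤ d`: apply
`ex_child` to `child 0 root`. -/
def LevStmt : Prop := ∀ (Γ V : Type) [Group Γ] [MulAction Γ V] (T : Tree Γ V),
  1 ≤ T.d ∧ ∀ v : V, (MulAction.orbit Γ v).Finite ∧ 1 ≤ N Γ v ∧
    (0 < T.lv v → N Γ (T.par v) ≤ N Γ v ∧ N Γ v ≤ T.d * N Γ (T.par v))

/-- **ITP** (uses: none).  Iterated parents.

PROOF.  Inductions on `k` from `par_smul`, `lv_par`.  For the subgroups `KK`: `par^[m] w = v`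
implies `par^[m + k] w = par^[k] v`, so an element fixing everything below `par^[k] v` fixes
everything below `v`.  Conjugation: `par^[m] w = g • v` iff `par^[m] (g⁻¹ • w) = v`. -/
def ItpStmt : Prop := ∀ (Γ V : Type) [Group Γ] [MulAction Γ V] (T : Tree Γ V),
  (∀ (k : ℕ) (g : Γ) (v : V), T.par^[k] (g • v) = g • T.par^[k] v) ∧
  (∀ (k : ℕ) (v : V), T.lv (T.par^[k] v) = T.lv v - k) ∧
  (∀ (k : ℕ) (v : V), KK T (T.par^[k] v) ≤ KK T v) ∧
  (∀ (g h : Γ) (v : V), h ∈ KK T v ↔ g * h * g⁻¹ ∈ KK T (g • v)) ∧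
  (∀ (g h : Γ) (v : V), g • v = v → h ∈ KK T v → g * h * g⁻¹ ∈ KK T v) ∧
  (∀ (h : Γ) (v : V), (∀ i < T.d, h ∈ KK T (T.child i v)) → h ∈ KK T v)

/-- **AHR** (uses: LEV, ITP).  The recursion for the number of pairs of rank at least `h`.

PROOF.  Put `u = par^[k] v`, `O = orbit v`, `O' = orbit u`.  `par^[k]` maps `O` onto `O'` and
commutes with `Γ`, so all fibres have the same size `D` and `N v = D * N u`.  A pair `(s, w)`,
`w ∈ O`, `rk s w ≥ h`: the pair `(s, par^[k] w)` has rank `≥ h` (`mono` along the path; all vertices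
`par^[m] w`, `m < k`, have level `> 0`).  If the rank of `(s, par^[k] w)` is exactly `h`, the rank is
`h` at all vertices of the path, and by `uniq` (`h ≥ 1`) `w` is determined by `(s, par^[k] w)` (two
such `w, w'`: show `par^[m] w = par^[m] w'` for `m = k, k-1, .., 0`): at most `|S| N u` pairs.  The
other pairs lie over pairs of rank `≥ h + 1` at `O'`: at most `D * ah (h+1) u`.  So
`ah h v ≤ |S| N u + D * ah (h+1) u`; multiply by `N u`. -/
def AhrStmt : Prop := ∀ (Γ V : Type) [Group Γ] [MulAction Γ V] (T : Tree Γ V) (S : Finset Γ)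
  (rk : Γ → V → ℕ) (R : ℕ), Rank T S rk R → ∀ (h k : ℕ) (v : V), 1 ≤ h → k ≤ T.lv v →
  N Γ (T.par^[k] v) * ah S rk h v ≤
    S.card * N Γ (T.par^[k] v) ^ 2 + N Γ v * ah S rk (h + 1) (T.par^[k] v)

/-- **UBD** (uses: LEV, ITP, AHR).  Large orbits have few non trivial labels.

PROOF.  Show by downward induction on `h`, `1 ≤ h ≤ R + 1`: there are `C, D` with
`C (r+1)^D ≤ N v → r * ah h v < N v` for all `r, v`.  `h = R + 1`: `ah = 0` (`Rank.le`), `N v ≥ 1`.
Step from `h + 1` (constants `C, D`, w.l.o.g. `C ≥ 1`) to `h`: let `t = C (2r+1)^D` and suppose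
`2 r |S| d t + t ≤ N v` (true if `N v ≥ C' (r+1)^(D+1)` with `C' = (2 |S| d + 1) C 2^D`).  Let `u` be
the first vertex on the path from the root to `v` with `N u ≥ t`: it exists, and `N u ≤ d t` (if `u`
is the root then `N u = 1 ≤ d t`, otherwise `N u ≤ d N (par u) < d t`).  By the case `h + 1` for `2r`:
`2 r ah (h+1) u < N u`.  By AHR `N u * 2 r ah h v ≤ 2 r |S| (N u)² + N v * 2 r ah (h+1) u
≤ N u * (2 r |S| N u) + N v (N u - 1)`, and `2 r |S| N u ≤ 2 r |S| d t ≤ N v`.  So
`N u * (2 r ah h v) ≤ N u N v + N u N v - N v < 2 N u N v`, i.e. `r ah h v < N v`. -/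
def UbdStmt : Prop := ∀ (Γ V : Type) [Group Γ] [MulAction Γ V] (T : Tree Γ V) (S : Finset Γ)
  (rk : Γ → V → ℕ) (R : ℕ), Rank T S rk R → ∃ C D : ℕ, ∀ (r : ℕ) (v : V),
  C * (r + 1) ^ D ≤ N Γ v → r * ah S rk 1 v < N Γ v

/-- **CNT** (uses: LEV, ITP).  Counting the ball.

PROOF.  Let `u = par^[K j] v`.  Every `g ∈ ball r` is `s_1 s_2 .. s_r` with `s_i ∈ S`.  For every
`i` the number of `w ∈ orbit u` with `rk s_i ((s_(i+1) .. s_r) • w) ≥ 1` is
`#{w ∈ orbit u | rk s_i w ≥ 1} ≤ ah 1 u`.  As `r * ah 1 u < N u` some `w ∈ orbit u` has rank `0` for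
all `i`, i.e. `g ∈ Dn r w ⊆ Dn (2^j) w` (multiply by `1 ∈ S` on the left, `rk 1 _ = 0`, `r ≤ 2^j`).
Write `w = k • u`, `w' = k • v`: `par^[K j] w' = w` and `w' ∈ orbit v`, `lv w' = lv v`.  Choose for
every `w' ∈ orbit v` the function `γ_w'` of `Con`.  Map `g ↦ (w', g • w', γ_w' g)` into
`orbit v × orbit v × Fin q`.  If `g, g'` have the same image then `g⁻¹ g' ∈ KK w'`, and
`g⁻¹ g' ∈ ball (2r)` (`S` is closed under inverses), so `g⁻¹ g' ∈ fc Γ`: the fibres have at most
`|fc Γ|` elements (`fc_finite`).  So `|ball r| ≤ |fc Γ| q (N v)²`. -/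
def CntStmt : Prop := ∀ (Γ V : Type) [Group Γ] [MulAction Γ V] (T : Tree Γ V) (S : Finset Γ)
  (rk : Γ → V → ℕ) (R K q : ℕ), Setting T S rk R K q → ∀ (r j : ℕ) (v : V), r ≤ 2 ^ j →
  K * j ≤ T.lv v → (∀ w ∈ MulAction.orbit Γ v, ∀ g ∈ ball S (2 * r), g ∈ KK T w → g ∈ fc Γ) →
  r * ah S rk 1 (T.par^[K * j] v) < N Γ (T.par^[K * j] v) →
  (ball S r).ncard ≤ Nat.card (fc Γ) * q * N Γ v ^ 2

/-- **FIX** (uses: none).  A subgroup of finite index fixing all points with small finite orbits.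

PROOF.  There are only finitely many homomorphisms `Γ →* Equiv.Perm (Fin M)` (they are determined by
their values on the finite set `S`); `H` = the intersection of their kernels, a finite intersection
of subgroups of finite index.  If the orbit of `v` is finite with `m ≤ M` elements, choose an
injection of the orbit into `Fin M`; the permutation action on the orbit, extended by the identity
(`Equiv.Perm.viaFintypeEmbedding` or `Equiv.Perm.extendDomainHom`), is such a homomorphism, so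
`h ∈ H` fixes all points of the orbit. -/
def FixStmt : Prop := ∀ (Γ V : Type) [Group Γ] [MulAction Γ V] (S : Finset Γ),
  Subgroup.closure (S : Set Γ) = ⊤ → ∀ M : ℕ, ∃ H : Subgroup Γ, H.FiniteIndex ∧
  ∀ v : V, (MulAction.orbit Γ v).Finite → N Γ v ≤ M → ∀ h ∈ H, h • v = v

/-- **INT** (uses: none).  Finitely many infinite virtually normal subgroups have infinite
intersection.

PROOF.  `exists_le_fc` of Helper50_CIG/Basic.lean with the family `P` on `Option ι` (`none ↦ H`),
all normalised by `H`: if the intersection is finite, some `P i ≤ fc Γ` or `H ≤ fc Γ`; but `fc Γ` is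
finite (`fc_finite`), `P i` is infinite and `H` is infinite (finite index in an infinite group). -/
def IntStmt : Prop := ∀ (Γ : Type) [Group Γ], Infinite Γ → ¬ CI Γ → ∀ H : Subgroup Γ,
  H.FiniteIndex → ∀ (ι : Type) [Finite ι] (P : ι → Subgroup Γ), (∀ i, (P i : Set Γ).Infinite) →
  (∀ i, ∀ h ∈ H, ∀ k ∈ P i, h * k * h⁻¹ ∈ P i) →
  {g : Γ | g ∈ H ∧ ∀ i, g ∈ P i}.Infinite

/-- **TYP** (uses: LEV, ITP, FIX).  Typical vertices of a good ultrafilter.

PROOF.  `KU` is finite and normalised by `H` of FIX for `M = n` (for `h ∈ H`, `k ∈ KU`: almost every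
`v` has `N v = n`, `h • v = v`, `k ∈ KK v`, so `h k h⁻¹ ∈ KK v` by ITP).  So `KU ≤ fc Γ` by `le_fc`.
If `N v = n` then `orbit v = {g • v | g ∈ ball n}` (the sets `ball m • v` increase, `1 ∈ S`; if
`ball (m+1) • v = ball m • v` then this set is invariant under `S`, so under `Γ`, by `gen`).  For
every pair `k ∈ ball n`, `g ∈ ball r` with `g ∉ fc Γ` we have `k⁻¹ g k ∉ fc Γ`, so
`k⁻¹ g k ∉ KU`, so (ultrafilter) almost every `v` has `k⁻¹ g k ∉ KK v`, i.e. `g ∉ KK (k • v)`
(ITP).  There are finitely many pairs. -/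
def TypStmt : Prop := ∀ (Γ V : Type) [Group Γ] [MulAction Γ V] (T : Tree Γ V) (S : Finset Γ)
  (rk : Γ → V → ℕ) (R K q : ℕ), Setting T S rk R K q → ∀ (U : Ultrafilter V) (n : ℕ),
  Good T U n → ∀ r : ℕ, ∀ᶠ v in (U : Filter V), ∀ w ∈ MulAction.orbit Γ v,
    ∀ g ∈ ball S r, g ∈ KK T w → g ∈ fc Γ

/-- **CHD** (uses: LEV, ITP, FIX, INT).  A good ultrafilter has a good child.

PROOF.  `H` of FIX for `M = d n`.  For `i < d` let `U_i = U.map (child i)`.  For almost all `v`:
`n ≤ N (child i v) ≤ d n`, so there is `n_i` with `N (child i v) = n_i` for almost all `v` (finitely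
many values, ultrafilter).  If no `U_i` is good, then all `KU U_i`, `i < d`, are infinite; they are
normalised by `H` (almost all `child i v` are fixed by `H`); by INT (with `ι = Fin d`) the elements
lying in all `KU U_i` form an infinite set; but such an element lies, for almost every `v`, in
`KK (child i v)` for all `i < d`, so in `KK v` (ITP): it lies in the finite group `KU U`. -/
def ChdStmt : Prop := ∀ (Γ V : Type) [Group Γ] [MulAction Γ V] (T : Tree Γ V) (S : Finset Γ)
  (rk : Γ → V → ℕ) (R K q : ℕ), Setting T S rk R K q → ∀ (U : Ultrafilter V) (n : ℕ),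
  Good T U n → ∃ i n', i < T.d ∧ Good T (U.map (T.child i)) n' ∧ n ≤ n' ∧ n' ≤ T.d * n

/-- **DSC** (uses: CHD).  Good descendants.

PROOF.  Induction on `k` with CHD; `(U'.map (child i)).map par^[k+1] = U'.map par^[k] = U`. -/
def DscStmt : Prop := ∀ (Γ V : Type) [Group Γ] [MulAction Γ V] (T : Tree Γ V) (S : Finset Γ)
  (rk : Γ → V → ℕ) (R K q : ℕ), Setting T S rk R K q → ∀ (U : Ultrafilter V) (n : ℕ),
  Good T U n → ∀ k : ℕ, ∃ (U' : Ultrafilter V) (n' : ℕ), Good T U' n' ∧ n ≤ n' ∧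
    U'.map (T.par^[k]) = U ∧ ∀ᶠ v in (U' : Filter V), k ≤ T.lv v

/-- **UNB** (uses: LEV, ITP, UBD, CNT, TYP, DSC).  If good ultrafilters have unbounded orbit sizes,
the growth is polynomial.

PROOF.  `C, D` from UBD.  Let `r` be given, `j = Nat.clog 2 r` (so `r ≤ 2^j ≤ 2 r + 1`),
`t = C (r+1)^D`.  Take `U` good with `n ≥ t`, `U'` from DSC for `k = K j`, and a vertex `v` typical
for `U'` (TYP for `2 r`), with `K j ≤ lv v` and `N (par^[K j] v) = n ≥ t`.  Let `u` be the first
vertex on the path from the root to `par^[K j] v` with `N u ≥ t`; `N u ≤ d t + 1` (as in UBD).  Let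
`u'` be the vertex on the path from the root to `v` with `par^[K j] u' = u` (`u' = par^[m] v`,
`m = lv v - lv u - K j`).  `N u' ≤ d^(K j) N u`.  The elements of `KK w`, `w ∈ orbit u'`, which lie
in `ball (2r)` lie in `fc Γ`: `w = par^[m] w'` with `w' ∈ orbit v`, `KK w ≤ KK w'` (ITP).
`r * ah 1 u < N u` by UBD.  CNT for `u'`: `|ball r| ≤ |fc Γ| q (d^(K j) (d t + 1))²`.  And
`d^(K j) ≤ (2^j)^(d K) ≤ (2 r + 1)^(d K)` (`d ≤ 2^d`).  All this is at most
`C' (r+1)^D'` for fixed `C', D'`. -/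
def UnbStmt : Prop := ∀ (Γ V : Type) [Group Γ] [MulAction Γ V] (T : Tree Γ V) (S : Finset Γ)
  (rk : Γ → V → ℕ) (R K q : ℕ), Setting T S rk R K q →
  (∀ M : ℕ, ∃ (U : Ultrafilter V) (n : ℕ), M ≤ n ∧ Good T U n) →
  ∃ C D : ℕ, ∀ r : ℕ, (ball S r).ncard ≤ C * (r + 1) ^ D

/-- **DZE** (uses: LEV, ITP, CNT, TYP, DSC).  If the orbit sizes of good ultrafilters are bounded,
the rank of a good ultrafilter is not `0`.

PROOF.  Suppose `del v = 0` for almost all `v` of `U`.  For every `r` let `j` with `r ≤ 2^j`, `U'`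
from DSC for `k = K j`, `v` typical for `U'` (TYP for `2r`), with `K j ≤ lv v`, `N v ≤ M` and
`del (par^[K j] v) = 0`: all `rk s w = 0` for `s ∈ S`, `w` in the orbit of `par^[K j] v`
(`Rank.le` bounds the set in the definition of `del`), so `ah 1 (par^[K j] v) = 0`, and CNT gives
`|ball r| ≤ |fc Γ| q M²` for all `r`.  As the balls increase (`1 ∈ S`) and their union is `Γ`
(`gen`, `inv_mem`), `Γ` is finite: contradiction with `inf`. -/
def DzeStmt : Prop := ∀ (Γ V : Type) [Group Γ] [MulAction Γ V] (T : Tree Γ V) (S : Finset Γ)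
  (rk : Γ → V → ℕ) (R K q M : ℕ), Setting T S rk R K q →
  (∀ (U : Ultrafilter V) (n : ℕ), Good T U n → n ≤ M) →
  ∀ (U : Ultrafilter V) (n : ℕ), Good T U n → ¬ ∀ᶠ v in (U : Filter V), del S rk v = 0

/-- **RKS** (uses: LEV).  Elementary properties of `del` and `sig`.

PROOF.  The set in the definition of `del` is bounded by `R` and not empty (`S` is not empty, the
orbit is not empty).  For a child: `par` maps the orbit of `x` onto the orbit of `par x`, and
`rk s w ≤ rk s (par w)` (`mono`; all points of the orbit have the level of `x`).  If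
`N x = N (par x)` then `par` is a bijection between the orbits, so the sums over the orbits compare;
equality of the sums forces equality of all terms. -/
def RksStmt : Prop := ∀ (Γ V : Type) [Group Γ] [MulAction Γ V] (T : Tree Γ V) (S : Finset Γ)
  (rk : Γ → V → ℕ) (R : ℕ), Rank T S rk R → S.Nonempty →
  (∀ v, ∀ s ∈ S, ∀ w ∈ MulAction.orbit Γ v, rk s w ≤ del S rk v) ∧
  (∀ v, del S rk v ≤ R ∧ ∃ s ∈ S, ∃ w ∈ MulAction.orbit Γ v, rk s w = del S rk v) ∧
  (∀ v, sig S rk v ≤ S.card * N Γ v * R) ∧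
  (∀ x, 0 < T.lv x → del S rk x ≤ del S rk (T.par x)) ∧
  (∀ x, 0 < T.lv x → N Γ x = N Γ (T.par x) →
    Set.InjOn T.par (MulAction.orbit Γ x) ∧ sig S rk x ≤ sig S rk (T.par x) ∧
    (sig S rk x = sig S rk (T.par x) →
      ∀ s ∈ S, ∀ w ∈ MulAction.orbit Γ x, rk s w = rk s (T.par w)))

/-- **NEU** (uses: LEV, RKS).  Neutral children.

PROOF.  Let `x` be a neutral child of `v`: by RKS all ranks at the orbit of `x` are the ranks of the
parents, so `del x = del v` (parents run over the orbit of `v`).  Let `y` be another child of `v`,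
`1 ≤ del v`.  Let `ζ = g • y` be in the orbit of `y`, `η = par ζ = g • v`, `ξ = g • x ≠ ζ` (both are
children of `η`).  For `s ∈ S`: if `rk s η = 0` then `rk s ζ = 0 < del v`.  If `rk s η ≥ 1` then
`rk s ξ = rk s η`, so `rk s ζ = rk s η` would give `ζ = ξ` (`uniq`); so
`rk s ζ < rk s η ≤ del v`.  Hence `del y + 1 ≤ del v`. -/
def NeuStmt : Prop := ∀ (Γ V : Type) [Group Γ] [MulAction Γ V] (T : Tree Γ V) (S : Finset Γ)
  (rk : Γ → V → ℕ) (R : ℕ), Rank T S rk R → S.Nonempty → ∀ v x, Neu T S rk v x →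
  del S rk x = del S rk v ∧
  (1 ≤ del S rk v → ∀ y, T.par y = v → T.lv y = T.lv v + 1 → y ≠ x → del S rk y + 1 ≤ del S rk v)

/-- **SPA** (uses: LEV, RKS, NEU).  The spine: numbers.

PROOF.  Induction on `n`: if `Alive (n+1) v` then `∃ x, Neu (stp^[n] v) x`, so
`stp (stp^[n] v)` is such an `x` (`stp` unfolds to `choose`), `stp^[n+1] v = stp (stp^[n] v)`
(`Function.iterate_succ_apply'`).  Hanging vertices: NEU with `v := stp^[n] v`, and
`N y ≤ d N (par y)` (LEV). -/
def SpaStmt : Prop := ∀ (Γ V : Type) [Group Γ] [MulAction Γ V] (T : Tree Γ V) (S : Finset Γ)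
  (rk : Γ → V → ℕ) (R : ℕ), Rank T S rk R → S.Nonempty →
  (∀ n v, Alive T S rk n v → N Γ ((stp T S rk)^[n] v) = N Γ v ∧
    sig S rk ((stp T S rk)^[n] v) = sig S rk v ∧ del S rk ((stp T S rk)^[n] v) = del S rk v ∧
    T.lv ((stp T S rk)^[n] v) = T.lv v + n) ∧
  (∀ n v, Alive T S rk (n + 1) v → T.par ((stp T S rk)^[n + 1] v) = (stp T S rk)^[n] v) ∧
  (∀ n v y, Hang T S rk n v y → 1 ≤ del S rk v →
    del S rk y + 1 ≤ del S rk v ∧ N Γ y ≤ T.d * N Γ v)

/-- **SPB** (uses: LEV, ITP, SPA).  The spine: elements acting trivially on the hanging trees.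

PROOF.  (i) Let `w` be below `v` (`par^[k] w = v`), to show `h • w = w`.  Let `x_m` (`m ≤ k`) be the
vertices of the path from `v` to `w` if `k ≤ lv w` (if `lv w < k` then `v` is the root: replace `k`
by `lv w`, `par^[lv w] w = root`).  If the path leaves the spine at a real step `m < n`
(`x_m = stp^[m] v`, `x_(m+1) ≠ stp^[m+1] v`), then `x_(m+1)` hangs: `Hang m v x_(m+1)` (`Alive (m+1)`
follows from `Alive n`), `w` is below it, `h ∈ KK x_(m+1)`.  Otherwise `w` is a spine vertex
`stp^[k] v`, `k ≤ n`, and an iterated parent of `stp^[n] v`, which `h` fixes (so `h` fixes its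
iterated parents), or `w` is below `stp^[n] v`.  (ii) is the same without end: either the path
leaves the spine, or `w = stp^[k] v` is fixed by hypothesis. -/
def SpbStmt : Prop := ∀ (Γ V : Type) [Group Γ] [MulAction Γ V] (T : Tree Γ V) (S : Finset Γ)
  (rk : Γ → V → ℕ) (R : ℕ), Rank T S rk R → S.Nonempty → ∀ (v : V) (h : Γ),
  (∀ n, Alive T S rk n v → h ∈ KK T ((stp T S rk)^[n] v) →
    (∀ m y, m < n → Hang T S rk m v y → h ∈ KK T y) → h ∈ KK T v) ∧
  ((∀ n, Alive T S rk n v) → (∀ n, h • (stp T S rk)^[n] v = (stp T S rk)^[n] v) →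
    (∀ m y, Hang T S rk m v y → h ∈ KK T y) → h ∈ KK T v)

/-- **COV** (uses: INT).  The covering argument.

PROOF.  Let `C h = {e | h ∈ L e}`.  CLAIM: there are `M ∈ U` and finitely many `h_1, .., h_t ∈ H`,
`h_i ∉ fc Γ`, such that every `e` with `π e ∈ M` lies in some `C h_i`.  Otherwise the filter
`comap π U ⊓ (⨅ h ∈ H \ fc Γ, 𝓟 (C h)ᶜ)` is `NeBot` (a basic set is
`π⁻¹ M ∩ (C h_1)ᶜ ∩ .. ∩ (C h_t)ᶜ`, not empty).  Let `E'` be an ultrafilter below it.
`E'.map π = U` (`E'.map π ≤ U` and both are ultrafilters).  By hypothesis the set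
`{h ∈ H | ∀ᶠ e in E', h ∈ L e}` is infinite, so it contains some `h ∉ fc Γ` (`fc_finite`); then
`C h ∈ E'` and `(C h)ᶜ ∈ E'`, contradiction.  Given the claim, put
`P_i = {g ∈ H | ∀ e, π e ∈ M → e ∈ C h_i → g ∈ L e}`: a subgroup normalised by `H`, it contains
`h_i ∉ fc Γ`, so it is infinite (`le_fc`).  By INT the elements of `H` which lie in all `P_i` form an
infinite set; each of them lies in `L e` for all `e` with `π e ∈ M`, and `M ∈ U`. -/
def CovStmt : Prop := ∀ (Γ : Type) [Group Γ], Infinite Γ → ¬ CI Γ → ∀ H : Subgroup Γ,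
  H.FiniteIndex → ∀ (E V : Type) (π : E → V) (L : E → Subgroup Γ),
  (∀ e, ∀ h ∈ H, ∀ k ∈ L e, h * k * h⁻¹ ∈ L e) → ∀ U : Ultrafilter V,
  (∀ E' : Ultrafilter E, E'.map π = U → {h : Γ | h ∈ H ∧ ∀ᶠ e in (E' : Filter E), h ∈ L e}.Infinite)
  → {h : Γ | h ∈ H ∧ ∀ᶠ v in (U : Filter V), ∀ e, π e = v → h ∈ L e}.Infinite

/-- **ZIN** (uses: LEV, ITP, SPA, COV).  The group `ZZ` is infinite.

PROOF.  COV with `E = {p : V × ℕ × V | Hang p.2.1 p.1 p.2.2 ∧ N p.1 = n ∧ del p.1 = δ}`,
`π e = e.1`, `L e = KK (e.2.2)`.  For `e ∈ E`, `y = e.2.2`: `N y ≤ d n ≤ d M` (SPA), so `H` fixes `y`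
and normalises `KK y` (ITP).  Let `E'` be an ultrafilter on `E` over `U`, and suppose that
`{h ∈ H | ∀ᶠ e in E', h ∈ KK y}` is finite.  `U' = E'.map (fun e => e.2.2)`.  `KU U'` is finite
(its intersection with `H` is finite, and `H` has finite index: `inf_infinite`).  `N y` takes
finitely many values, so it is constant almost everywhere, `U'` is good, and `del y + 1 ≤ δ` for all
`e ∈ E` (SPA): contradiction with the minimality of `δ`.  So COV gives that
`{h ∈ H | ∀ᶠ v in U, ∀ e, π e = v → h ∈ KK y}` is infinite, and this set is contained in `ZZ`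
(for almost all `v`: `N v = n` and `del v = δ`, so every hanging vertex gives an `e ∈ E`). -/
def ZinStmt : Prop := ∀ (Γ V : Type) [Group Γ] [MulAction Γ V] (T : Tree Γ V) (S : Finset Γ)
  (rk : Γ → V → ℕ) (R K q M δ : ℕ), Setting T S rk R K q → 1 ≤ δ → ∀ H : Subgroup Γ,
  H.FiniteIndex → (∀ v : V, N Γ v ≤ T.d * M → ∀ h ∈ H, h • v = v) →
  ∀ (U : Ultrafilter V) (n : ℕ), Good T U n → n ≤ M →
  (∀ᶠ v in (U : Filter V), del S rk v = δ) →
  (∀ (U' : Ultrafilter V) (n' : ℕ), Good T U' n' → ∀ᶠ v in (U' : Filter V), δ ≤ del S rk v) →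
  (ZZ T S rk H U : Set Γ).Infinite

/-- **EIA** (uses: LEV, SPA, SPB).  The end of the proof if the spines are infinite.

PROOF.  `h ∈ ZZ`: for almost every `v` all hanging trees are fixed by `h`, the spine is infinite and
`N (stp^[m] v) = N v = n ≤ M ≤ d M` (SPA; `1 ≤ d`), so `H` fixes the spine; by SPB (ii)
`h ∈ KK v`.  So `ZZ ≤ KU U`, which is finite. -/
def EiaStmt : Prop := ∀ (Γ V : Type) [Group Γ] [MulAction Γ V] (T : Tree Γ V) (S : Finset Γ)
  (rk : Γ → V → ℕ) (R K q M : ℕ), Setting T S rk R K q → ∀ H : Subgroup Γ,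
  (∀ v : V, N Γ v ≤ T.d * M → ∀ h ∈ H, h • v = v) →
  ∀ (U : Ultrafilter V) (n : ℕ), Good T U n → n ≤ M →
  (∀ᶠ v in (U : Filter V), ∀ m, Alive T S rk m v) → (ZZ T S rk H U : Set Γ).Finite

/-- **EIB** (uses: LEV, ITP, INT, SPA, SPB).  If the spines are finite, the ends of the spines
define a good ultrafilter.

PROOF.  Let `f v = stp^[m] v` for some chosen `m` with `Alive m v ∧ ¬ Alive (m+1) v` if there is one
(`f v = v` otherwise).  `U' = U.map f`.  For almost every `v`: `N (f v) = N v = n`,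
`del (f v) = del v`, `sig (f v) = sig v` (SPA), and `f v` has no neutral child (`Alive (m+1)` fails at
the last step).  `KU U'` is normalised by `H` (`H` fixes `f v`).  If `h ∈ KU U'` and `h ∈ ZZ` then
for almost every `v`: `h ∈ KK (f v)` and `h ∈ KK y` for all hanging `y`, so `h ∈ KK v` (SPB (i)):
`h ∈ KU U`, finite.  If `KU U'` is infinite then by INT (with the family `KU U'`, `ZZ`; `ZZ` is
normalised by `H` because `H` fixes `y` for all hanging `y` at typical `v`: `N y ≤ d n ≤ d M`) the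
intersection is infinite: contradiction. -/
def EibStmt : Prop := ∀ (Γ V : Type) [Group Γ] [MulAction Γ V] (T : Tree Γ V) (S : Finset Γ)
  (rk : Γ → V → ℕ) (R K q M : ℕ), Setting T S rk R K q → ∀ H : Subgroup Γ,
  H.FiniteIndex → (∀ v : V, N Γ v ≤ T.d * M → ∀ h ∈ H, h • v = v) →
  ∀ (U : Ultrafilter V) (n δ σ : ℕ), Good T U n → n ≤ M → 1 ≤ δ →
  (∀ᶠ v in (U : Filter V), del S rk v = δ) → (∀ᶠ v in (U : Filter V), sig S rk v = σ) →
  (ZZ T S rk H U : Set Γ).Infinite →
  (∀ᶠ v in (U : Filter V), ∃ m, Alive T S rk m v ∧ ¬ Alive T S rk (m + 1) v) →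
  ∃ U' : Ultrafilter V, Good T U' n ∧ (∀ᶠ v in (U' : Filter V), del S rk v = δ) ∧
    (∀ᶠ v in (U' : Filter V), sig S rk v = σ) ∧ ∀ᶠ v in (U' : Filter V), ¬ ∃ x, Neu T S rk v x

/-- **CST** (uses: RKS).  `del` and `sig` are almost everywhere constant for good ultrafilters.

PROOF.  `del v ≤ R` for all `v`, `sig v ≤ |S| n R` for almost all `v` (RKS): finitely many values,
so an ultrafilter chooses one (`Ultrafilter.eventually_exists_mem_iff` or
`Ultrafilter.finite_biUnion_mem_iff`). -/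
def CstStmt : Prop := ∀ (Γ V : Type) [Group Γ] [MulAction Γ V] (T : Tree Γ V) (S : Finset Γ)
  (rk : Γ → V → ℕ) (R : ℕ), Rank T S rk R → S.Nonempty → ∀ (U : Ultrafilter V) (n : ℕ),
  Good T U n → ∃ δ σ : ℕ, δ ≤ R ∧ (∀ᶠ v in (U : Filter V), del S rk v = δ) ∧
    ∀ᶠ v in (U : Filter V), sig S rk v = σ

/-- **EXT** (uses: ITP, CST).  The root is good, and there is an extremal good ultrafilter.

PROOF.  The principal ultrafilter at the root is good: the orbit of the root is `{root}`, and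
`KK root` is the kernel of the action (every vertex is below the root: `par^[lv w] w = root`), finite
by `ker`.  Among the triples `(δ, M - n, σ)` of good ultrafilters (CST) take a lexicographically
minimal one. -/
def ExtStmt : Prop := ∀ (Γ V : Type) [Group Γ] [MulAction Γ V] (T : Tree Γ V) (S : Finset Γ)
  (rk : Γ → V → ℕ) (R K q M : ℕ), Setting T S rk R K q →
  (∀ (U : Ultrafilter V) (n : ℕ), Good T U n → n ≤ M) →
  ∃ (U : Ultrafilter V) (n δ σ : ℕ), Good T U n ∧ (∀ᶠ v in (U : Filter V), del S rk v = δ) ∧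
    (∀ᶠ v in (U : Filter V), sig S rk v = σ) ∧
    ∀ (U' : Ultrafilter V) (n' δ' σ' : ℕ), Good T U' n' →
      (∀ᶠ v in (U' : Filter V), del S rk v = δ') → (∀ᶠ v in (U' : Filter V), sig S rk v = σ') →
      δ ≤ δ' ∧ (δ' = δ → n' ≤ n) ∧ (δ' = δ → n' = n → σ ≤ σ')

/-- **BND** (uses: LEV, ITP, FIX, CHD, DZE, RKS, ZIN, EIA, EIB, CST, EXT).  Bounded orbit sizes are
impossible.

PROOF.  Let `U, n, δ, σ` be extremal (EXT).  `δ ≥ 1` by DZE.  `H` from FIX for `d M` (all orbits are
finite).  ZIN: `ZZ` is infinite (minimality of `δ` with CST for `U'`).  Either almost every `v` has an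
infinite spine: EIA gives a contradiction; or almost every `v` has `¬ ∀ m, Alive m v`, i.e. there is
`m` with `Alive m v ∧ ¬ Alive (m+1) v` (`Alive 0 v` is true): EIB gives `U'` good with the same
`n, δ, σ` without neutral children.  CHD: a good child `U'' = U'.map (child i)`, `n ≤ n''`; CST:
`δ'', σ''`.  For almost all `v` of `U'`, `x = child i v`: `δ'' = del x ≤ del v = δ` (RKS), so
`δ'' = δ` by minimality; `n'' ≤ n` by maximality, so `n'' = n` and `N x = N v`;
`σ'' = sig x ≤ sig v = σ` (RKS), so `σ'' = σ`: `x` is a neutral child of `v`, contradiction. -/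
def BndStmt : Prop := ∀ (Γ V : Type) [Group Γ] [MulAction Γ V] (T : Tree Γ V) (S : Finset Γ)
  (rk : Γ → V → ℕ) (R K q M : ℕ), Setting T S rk R K q →
  ¬ ∀ (U : Ultrafilter V) (n : ℕ), Good T U n → n ≤ M

/-- **MAI** (uses: UNB, BND).  The growth is polynomial.  Immediate. -/
def MaiStmt : Prop := ∀ (Γ V : Type) [Group Γ] [MulAction Γ V] (T : Tree Γ V) (S : Finset Γ)
  (rk : Γ → V → ℕ) (R K q : ℕ), Setting T S rk R K q →
  ∃ C D : ℕ, ∀ r : ℕ, (ball S r).ncard ≤ C * (r + 1) ^ D

/-- **BIN** (uses: none).  Strahler numbers are ranks.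

PROOF.  Write `b k n g` for `HasBinary sec A k n g`.  (a) `b (k+1) n g → b k n g` (induction: `node`
gives `b k` of a section, then `down`; `down`: induction hypothesis, then `down`).  So the set of the
`k < R` with `b k` is an initial segment and `rkV` is its length; if `¬ b R` it is the least `k` with
`¬ b k`.  (b) `b k` of a section of `g` implies `b k` of `g` (`down`), so the rank does not increase,
and `¬ b R 0 s` implies `¬ b R` for all sections of `s`.  (c) If the rank `ρ ≥ 1` of `g` at `v` is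
also the rank of the sections at two DIFFERENT children, then `b (ρ-1)` holds for both sections, so
`b ρ` holds for `g` (`node`), so (as `¬ b R`) `ρ < R` and the rank of `g` is at least `ρ + 1`,
contradiction.  (d) `rkV 1 v = 0` if `1 ∈ A n` for all `n`: all iterated sections of `1` are `1`
(`sec_one`, `st_one`), so `¬ b 0 n 1` (induction).  The vertices of positive level are
`⟨n + 1, w⟩`, the section there is `sec n (section at the parent) w.2`. -/
def BinStmt : Prop := ∀ (G : ℕ → Type) [∀ n, Group (G n)] (X : ℕ → Type)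
  [∀ n, MulAction (G n) (X n)] (sec : ∀ n, G n → X n → G (n + 1)) (A : ∀ n, Set (G n)) (R : ℕ)
  (_hsec : ∀ n (g h : G n) (x : X n), sec n (g * h) x = sec n g (h • x) * sec n h x),
  (∀ n, (1 : G n) ∈ A n) →
  (∀ g v, rkV sec A R g v ≤ R) ∧ (∀ v, rkV sec A R 1 v = 0) ∧
  (∀ g v, 0 < v.1 → rkV sec A R g v ≤ rkV sec A R g (parV v)) ∧
  (∀ g, ¬ HasBinary sec A R 0 g → ∀ v w : Vt X, 0 < v.1 → 0 < w.1 → parV v = parV w →
    1 ≤ rkV sec A R g (parV v) → rkV sec A R g v = rkV sec A R g (parV v) →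
    rkV sec A R g w = rkV sec A R g (parV w) → v = w) ∧
  (∀ g, ¬ HasBinary sec A R 0 g → ∀ v, rkV sec A R g v = 0 → (st sec v.1 g v.2).2 ∈ A v.1 ∧
    ∀ m (h : G m), IsSec sec h v.1 (st sec v.1 g v.2).2 → h ∈ A m)

/-- **CON** (uses: none).  Products of `2 ^ j` elements of `A n` contract.

PROOF.  Induction on `j`: `2^(j+1) = 2^j + 2^j`; `g = a b`, `a, b ∈ (A n)^(2^j)`.  (Compare
`pow_two_sec` in Helper50_CIG/Contr.lean, same proof with its own `IsSec`; `IsSec.mul` there: the
iterated sections of a product are products of iterated sections at the same depth;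
`IsSec.split`.)  An iterated section of `g` at depth `K (j+1) = K j + K` is an iterated section at
depth `K` of an iterated section at depth `K j` of `g`, which is a product of iterated sections at
depth `K j` of `a` and of `b`, so a product of two elements of `A (n + K j)`; by hypothesis its
iterated sections at depth `K` lie in `A (n + K j + K)`. -/
def ConStmt : Prop := ∀ (G : ℕ → Type) [∀ n, Group (G n)] (X : ℕ → Type)
  [∀ n, MulAction (G n) (X n)] (sec : ∀ n, G n → X n → G (n + 1)) (A : ∀ n, Set (G n)) (K : ℕ),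
  (∀ n (g h : G n) (x : X n), sec n (g * h) x = sec n g (h • x) * sec n h x) →
  (∀ n, ∀ g ∈ A n * A n, ∀ m (h : G m), m = n + K → IsSec sec h n g → h ∈ A m) →
  ∀ (j n : ℕ) (g : G n), g ∈ A n ^ (2 ^ j) → ∀ m (h : G m), m = n + K * j → IsSec sec h n g →
    h ∈ A m

/-- **TRE** (uses: BIN, CON).  From the tower to the setting.

PROOF.  `Γ = closure S`, `S' ` = the finite set of the elements of `Γ` which lie in
`S ∪ S⁻¹ ∪ {1}`.  `V = Vt X` with the action `actV sec hsec` restricted to `Γ`, `T` = `treeV`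
restricted to `Γ` (`f n` enumerates the non-empty finite set `X n` of at most `d` elements),
`rk s v = rkV sec A R s v`, `Rank` from BIN (for `s = 1`: `¬ HasBinary R 0 1` as in BIN (d)).
Kernel: an element of `Γ` which fixes all vertices acts trivially through all its iterated sections
(an iterated section `h` of `g` is the section at some vertex `w`, and `h • x = x` because
`(w, x)` is fixed).  `Con` with `q`: let `w` be a vertex with `K j ≤ lv w`, `u = par^[K j] w`.  For
`g ∈ Dn S' rk (2^j) u` the section at `u` lies in `(A (lv u))^(2^j)` (induction on the number of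
factors with `st_mul`; rank `0` means that the label lies in `A`, BIN), and the section at `w` is an
iterated section of it, so it lies in `A (lv w)` by CON.  `γ g` = number of this section in an
injection `A (lv w) → Fin q` (`(A n).ncard ≤ q`; `q ≥ 1` as `1 ∈ A n`; any value for other `g`).  If
`g • w = g' • w` and the sections at `w` agree, then `g⁻¹ g'` fixes `w` and its section at `w` is
`1` (`st_mul`), so it fixes everything below `w` (`st_one`-like: the sections below are `1`).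
`inf`, `ker`, `nci` are hypotheses; `gen`: `S ⊆ S'`. -/
def TreStmt : Prop := ∀ (G : ℕ → Type) [∀ n, Group (G n)] [DecidableEq (G 0)] (X : ℕ → Type)
  [∀ n, Finite (X n)] [∀ n, MulAction (G n) (X n)] (sec : ∀ n, G n → X n → G (n + 1))
  (A : ∀ n, Set (G n)) (d q K R : ℕ),
  (∀ n (g h : G n) (x : X n), sec n (g * h) x = sec n g (h • x) * sec n h x) →
  (∀ n, Nonempty (X n)) → (∀ n, Nat.card (X n) ≤ d) → (∀ n, (A n).Finite ∧ (A n).ncard ≤ q) →
  (∀ n, (1 : G n) ∈ A n) →
  (∀ n, ∀ g ∈ A n * A n, ∀ m (h : G m), m = n + K → IsSec sec h n g → h ∈ A m) →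
  ∀ S : Finset (G 0), (∀ s ∈ S ∪ S⁻¹, ¬ HasBinary sec A R 0 s) →
  {g : G 0 | g ∈ Subgroup.closure (S : Set (G 0)) ∧
    ∀ m (h : G m), IsSec sec h 0 g → ∀ x : X m, h • x = x}.Finite →
  Infinite (Subgroup.closure (S : Set (G 0))) → ¬ CI (Subgroup.closure (S : Set (G 0))) →
  ∃ (V : Type) (_ : MulAction (Subgroup.closure (S : Set (G 0))) V)
    (T : Tree (Subgroup.closure (S : Set (G 0))) V)
    (S' : Finset (Subgroup.closure (S : Set (G 0))))
    (rk : Subgroup.closure (S : Set (G 0)) → V → ℕ), Setting T S' rk R K q ∧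
    ∀ s : Subgroup.closure (S : Set (G 0)), s ∈ S' ↔ (s : G 0) ∈ S ∪ S⁻¹ ∪ {1}

/-- **FIN** (uses: MAI, TRE).  The theorem.

PROOF.  Suppose `¬ CI Γ`, `Γ = closure S`.  The growth hypothesis makes `Γ` infinite (balls of
`S ∪ S⁻¹ ∪ {1}` lie in `Γ`).  If some `X m` is empty, the action of `Γ` on the finite set of the
vertices of level `≤ m` has the kernel given in the hypothesis (no iterated sections beyond level
`m`), so `Γ` is finite: contradiction (or: the map `g ↦ st sec m g` on `W X m`...).  TRE, MAI: the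
balls of `S'` have at most `C (r+1)^D` elements, and the balls of `S ∪ S⁻¹ ∪ {1}` are their images
(`Finset.coe_pow`, `Subgroup.subtype` is injective): contradiction to the growth hypothesis. -/
def FinStmt : Prop := ∀ (G : ℕ → Type) [∀ n, Group (G n)] [DecidableEq (G 0)] (X : ℕ → Type)
  [∀ n, Finite (X n)] [∀ n, MulAction (G n) (X n)] (sec : ∀ n, G n → X n → G (n + 1))
  (A : ∀ n, Set (G n)) (d q K R : ℕ),
  (∀ n (g h : G n) (x : X n), sec n (g * h) x = sec n g (h • x) * sec n h x) →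
  (∀ n, Nat.card (X n) ≤ d) → (∀ n, (A n).Finite ∧ (A n).ncard ≤ q) →
  (∀ n, (1 : G n) ∈ A n) →
  (∀ n, ∀ g ∈ A n * A n, ∀ m (h : G m), m = n + K → IsSec sec h n g → h ∈ A m) →
  ∀ S : Finset (G 0), (∀ s ∈ S ∪ S⁻¹, ¬ HasBinary sec A R 0 s) →
  {g : G 0 | g ∈ Subgroup.closure (S : Set (G 0)) ∧
    ∀ m (h : G m), IsSec sec h 0 g → ∀ x : X m, h • x = x}.Finite →
  (∀ (e : ℕ) (C : ℝ), ∃ n : ℕ,
    C * ((n : ℝ) + 1) ^ e < ((((S ∪ S⁻¹ ∪ {1}) ^ n).card : ℕ) : ℝ)) →
  CI (Subgroup.closure (S : Set (G 0)))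

end Pool.Agent.PCS
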