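import Pool.Agent.PCS.Base

/-!
Squad PCS: the rooted tree of a tower of groups with sections.
-/

namespace Pool.Agent.PCS

/-- `IsSec sec h n g`: the element `h` of the group `G m` is an iterated section of `g : G n`. -/
inductive IsSec {G : ℕ → Type} {X : ℕ → Type} (sec : ∀ n, G n → X n → G (n + 1)) {m : ℕ}
    (h : G m) : (n : ℕ) → G n → Prop
  | refl : IsSec sec h m h
  | step (n : ℕ) (g : G n) (x : X n) : IsSec sec h (n + 1) (sec n g x) → IsSec sec h n g

/-- `HasBinary sec A k n g`: the tree of the iterated sections of `g : G n` contains a subdivision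
of the complete binary tree of height `k` whose leaves are not in `A`. -/
inductive HasBinary {G : ℕ → Type} {X : ℕ → Type} (sec : ∀ n, G n → X n → G (n + 1))
    (A : ∀ n, Set (G n)) : ℕ → (n : ℕ) → G n → Prop
  | leaf (n : ℕ) (g : G n) : g ∉ A n → HasBinary sec A 0 n g
  | node (k n : ℕ) (g : G n) (x y : X n) : x ≠ y → HasBinary sec A k (n + 1) (sec n g x) →
      HasBinary sec A k (n + 1) (sec n g y) → HasBinary sec A (k + 1) n g
  | down (k n : ℕ) (g : G n) (x : X n) : HasBinary sec A k (n + 1) (sec n g x) →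
      HasBinary sec A k n g

/-- the vertices of level `n` -/
def W (X : ℕ → Type) : ℕ → Type
  | 0 => Unit
  | n + 1 => W X n × X n

/-- image and section of `g` at a vertex of level `n` -/
def st {G : ℕ → Type} {X : ℕ → Type} [∀ n, Group (G n)] [∀ n, MulAction (G n) (X n)]
    (sec : ∀ n, G n → X n → G (n + 1)) : (n : ℕ) → G 0 → W X n → W X n × G n
  | 0, g, w => (w, g)
  | n + 1, g, w => (((st sec n g w.1).1, (st sec n g w.1).2 • w.2), sec n (st sec n g w.1).2 w.2)

section

variable {G : ℕ → Type} {X : ℕ → Type} [∀ n, Group (G n)] [∀ n, MulAction (G n) (X n)]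
  (sec : ∀ n, G n → X n → G (n + 1))

theorem sec_one (hsec : ∀ n (g h : G n) (x : X n), sec n (g * h) x = sec n g (h • x) * sec n h x)
    (n : ℕ) (x : X n) : sec n 1 x = 1 := by
  have h1 := hsec n 1 1 x
  rw [mul_one, one_smul] at h1
  exact (mul_eq_left.mp h1.symm)

theorem st_one (hsec : ∀ n (g h : G n) (x : X n), sec n (g * h) x = sec n g (h • x) * sec n h x)
    (n : ℕ) (w : W X n) : st sec n 1 w = (w, 1) := by
  induction n with
  | zero => rfl
  | succ n ih =>
    show (((st sec n 1 w.1).1, (st sec n 1 w.1).2 • w.2), sec n (st sec n 1 w.1).2 w.2) = _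
    rw [ih]
    show ((w.1, (1 : G n) • w.2), sec n 1 w.2) = (w, 1)
    rw [one_smul, sec_one sec hsec]
    rfl

theorem st_mul (hsec : ∀ n (g h : G n) (x : X n), sec n (g * h) x = sec n g (h • x) * sec n h x)
    (n : ℕ) (g h : G 0) (w : W X n) : st sec n (g * h) w =
      ((st sec n g (st sec n h w).1).1, (st sec n g (st sec n h w).1).2 * (st sec n h w).2) := by
  induction n with
  | zero => rfl
  | succ n ih =>
    show (((st sec n (g * h) w.1).1, (st sec n (g * h) w.1).2 • w.2),
      sec n (st sec n (g * h) w.1).2 w.2) = _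
    rw [ih w.1]
    show (((st sec n g (st sec n h w.1).1).1, ((st sec n g (st sec n h w.1).1).2 *
      (st sec n h w.1).2) • w.2), sec n ((st sec n g (st sec n h w.1).1).2 *
      (st sec n h w.1).2) w.2) = _
    rw [mul_smul, hsec]
    rfl

/-- the vertices -/
def Vt (X : ℕ → Type) : Type := (n : ℕ) × W X n

/-- the action of `G 0` on the vertices -/
@[reducible] def actV
    (hsec : ∀ n (g h : G n) (x : X n), sec n (g * h) x = sec n g (h • x) * sec n h x) :
    MulAction (G 0) (Vt X) where
  smul g v := ⟨v.1, (st sec v.1 g v.2).1⟩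
  one_smul := by
    rintro ⟨n, w⟩
    show (⟨n, (st sec n 1 w).1⟩ : Vt X) = ⟨n, w⟩
    rw [st_one sec hsec]
  mul_smul := by
    rintro g h ⟨n, w⟩
    show (⟨n, (st sec n (g * h) w).1⟩ : Vt X) = ⟨n, (st sec n g (st sec n h w).1).1⟩
    rw [st_mul sec hsec]

/-- the parent -/
def parV : Vt X → Vt X
  | ⟨0, w⟩ => ⟨0, w⟩
  | ⟨n + 1, w⟩ => ⟨n, w.1⟩

/-- the tree of the tower; `f n` enumerates `X n` -/
def treeV (hsec : ∀ n (g h : G n) (x : X n), sec n (g * h) x = sec n g (h • x) * sec n h x)
    (d : ℕ) (f : ∀ n, ℕ → X n) (hf : ∀ n (x : X n), ∃ i < d, f n i = x) :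
    @Tree (G 0) (Vt X) _ (actV sec hsec) :=
  letI := actV sec hsec
  { par := parV
    lv := fun v => v.1
    root := ⟨0, ()⟩
    d := d
    child := fun i v => ⟨v.1 + 1, (v.2, f v.1 i)⟩
    lv_root := rfl
    eq_root := by
      rintro ⟨n, w⟩ hn
      have hn' : n = 0 := hn
      subst hn'
      rfl
    par_smul := by
      rintro g ⟨n, w⟩
      cases n with
      | zero => rfl
      | succ n => rfl
    lv_smul := fun _ _ => rfl
    lv_par := by
      rintro ⟨n, w⟩
      cases n with
      | zero => rfl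
      | succ n => rfl
    par_child := fun _ _ => rfl
    lv_child := fun _ _ => rfl
    ex_child := by
      rintro ⟨n, w⟩ hn
      cases n with
      | zero => exact absurd hn (lt_irrefl 0)
      | succ n =>
        obtain ⟨i, hi, h⟩ := hf n w.2
        refine ⟨i, hi, ?_⟩
        show (⟨n + 1, (w.1, f n i)⟩ : Vt X) = ⟨n + 1, w⟩
        rw [h]
        rfl }

end

/-- restriction of the action to a subgroup -/
def Tree.restr {Γ V : Type} [Group Γ] [MulAction Γ V] (T : Tree Γ V) (H : Subgroup Γ) :
    Tree H V where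
  par := T.par
  lv := T.lv
  root := T.root
  d := T.d
  child := T.child
  lv_root := T.lv_root
  eq_root := T.eq_root
  par_smul := fun g v => T.par_smul (g : Γ) v
  lv_smul := fun g v => T.lv_smul (g : Γ) v
  lv_par := T.lv_par
  par_child := T.par_child
  lv_child := T.lv_child
  ex_child := T.ex_child

open scoped Classical in
/-- the Strahler number of the section of `g` at `v` (at most `R`) -/
noncomputable def rkV {G : ℕ → Type} {X : ℕ → Type} [∀ n, Group (G n)]
    [∀ n, MulAction (G n) (X n)] (sec : ∀ n, G n → X n → G (n + 1)) (A : ∀ n, Set (G n)) (R : ℕ)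
    (g : G 0) (v : Vt X) : ℕ :=
  ((Finset.range R).filter fun k => HasBinary sec A k v.1 (st sec v.1 g v.2).2).card

end Pool.Agent.PCS
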